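import Pool.Agent.H19.N64.AsmDefs

/-! # From theorem T (ultrafilter form) to the bound for `adF 6 B` -/

open scoped BigOperators
open Filter

namespace Pool.Agent.H19.N64

/-- an integral point `(x; y)`: a solution of the system in `[0,B]` without a common value -/
def IsAd {s : ℕ} (B : ℕ) (z : Fin s ⊕ Fin s → ℤ) : Prop :=
  (∀ i, 0 ≤ z i ∧ z i ≤ B) ∧
  (∀ k ∈ Finset.Icc 1 4, ∑ i, z (Sum.inl i) ^ k = ∑ i, z (Sum.inr i) ^ k) ∧
  ∀ i j, z (Sum.inl i) ≠ z (Sum.inr j)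

/-- theorem T in the form needed for the final count -/
def HypT (s : ℕ) (a : ℝ) : Prop :=
  ∀ B : ℕ → ℕ, Tendsto B atTop atTop →
    ∀ S : ℕ → Finset (Fin s ⊕ Fin s → ℤ), (∀ j, ∀ z ∈ S j, IsAd (B j) z) →
      ∀ᶠ j in (hyperfilter ℕ : Filter ℕ), ((S j).card : ℝ) ≤ (B j : ℝ) ^ a

/-- the point of a pair -/
def ptOf {s : ℕ} (p : (Fin s → ℕ) × (Fin s → ℕ)) : Fin s ⊕ Fin s → ℤ :=
  Sum.elim (fun i => (p.1 i : ℤ)) (fun i => (p.2 i : ℤ))

lemma ptOf_injective {s : ℕ} :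
    Function.Injective (ptOf : (Fin s → ℕ) × (Fin s → ℕ) → Fin s ⊕ Fin s → ℤ) := by
  intro p q h
  refine Prod.ext (funext fun i => ?_) (funext fun i => ?_)
  · have := congrFun h (Sum.inl i)
    simpa [ptOf] using this
  · have := congrFun h (Sum.inr i)
    simpa [ptOf] using this

lemma isAd_ptOf {s B : ℕ} {p : (Fin s → ℕ) × (Fin s → ℕ)} (hp : p ∈ adF s B) :
    IsAd B (ptOf p) := by
  rw [mem_adF, mem_solF] at hp
  obtain ⟨⟨⟨h1, h2⟩, h3⟩, h4⟩ := hp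
  refine ⟨?_, ?_, ?_⟩
  · rintro (i | i)
    · exact ⟨Int.natCast_nonneg _, by simpa [ptOf] using h1 i⟩
    · exact ⟨Int.natCast_nonneg _, by simpa [ptOf] using h2 i⟩
  · intro k hk
    have := h3 k hk
    simp only [ptOf, Sum.elim_inl, Sum.elim_inr]
    exact_mod_cast this
  · intro i j
    simpa [ptOf] using h4 i j

theorem ad_of_hypT {s : ℕ} {a : ℝ} (hT : HypT s a) :
    ∃ C : ℝ, ∀ B : ℕ, 1 ≤ B → ((adF s B).card : ℝ) ≤ C * (B : ℝ) ^ a := by
  classical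
  have key : ∃ B0 : ℕ, ∀ B : ℕ, B0 ≤ B → ((adF s B).card : ℝ) ≤ (B : ℝ) ^ a := by
    by_contra hcon
    push Not at hcon
    choose g hg1 hg2 using hcon
    have htend : Tendsto g atTop atTop := tendsto_atTop_mono hg1 tendsto_id
    have := hT g htend (fun j => (adF s (g j)).image ptOf) (by
      intro j z hz
      obtain ⟨p, hp, rfl⟩ := Finset.mem_image.mp hz
      exact isAd_ptOf hp)
    obtain ⟨j, hj⟩ := this.exists
    rw [Finset.card_image_of_injective _ ptOf_injective] at hj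
    exact absurd hj (not_le.mpr (hg2 j))
  obtain ⟨B0, hB0⟩ := key
  refine ⟨∑ B ∈ Finset.range B0, ((adF s B).card : ℝ) / (B : ℝ) ^ a + 1, fun B hB => ?_⟩
  have hpos : (0 : ℝ) < (B : ℝ) ^ a := Real.rpow_pos_of_pos (by exact_mod_cast hB) a
  have hnn : ∀ B ∈ Finset.range B0, (0 : ℝ) ≤ ((adF s B).card : ℝ) / (B : ℝ) ^ a :=
    fun B _ => div_nonneg (Nat.cast_nonneg _) (Real.rpow_nonneg (Nat.cast_nonneg _) _)
  rcases lt_or_ge B B0 with h | h
  · have h1 : ((adF s B).card : ℝ) / (B : ℝ) ^ a ≤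
        ∑ B ∈ Finset.range B0, ((adF s B).card : ℝ) / (B : ℝ) ^ a :=
      Finset.single_le_sum hnn (Finset.mem_range.mpr h)
    rw [div_le_iff₀ hpos] at h1
    nlinarith
  · have h1 := hB0 B h
    have h2 : 0 ≤ ∑ B ∈ Finset.range B0, ((adF s B).card : ℝ) / (B : ℝ) ^ a :=
      Finset.sum_nonneg hnn
    nlinarith

end Pool.Agent.H19.N64
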