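import Pool.Agent.H19.N64.AsmDefs

/-! MODULE Z/A1 (about 90 lines). 9.4: the number of diagonal pairs is `720 B^6 + O(B^5)`.

PROOF. Upper bound: the map `(x, σ) -> (x, x ∘ σ)` from `(Fin 6 -> range (B+1)) x Perm (Fin 6)` covers `dgF 6 B`: at most `720 (B+1)^6`
(`Finset.card_image_le`, `Fintype.card_perm`). Lower bound: the same map is injective on injective `x` and its values are in `dgF 6 B`
(`∑ i, x (σ i) ^ j = ∑ i, x i ^ j`: `Equiv.sum_comp`); the number of injective `x : Fin 6 -> Fin (B+1)` is `(B+1).descFactorial 6 =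
(B+1) B (B-1) (B-2) (B-3) (B-4) >= (B-4)^6` (`Fintype.card_embedding_eq`; real subtraction, `B >= 4`). Both `(B+1)^6/B^6` and
`(B-4)^6/B^6` tend to 1; squeeze. -/

open scoped BigOperators
open Filter Topology

namespace Pool.Agent.H19.N64

private lemma card_dgF_le (B : ℕ) : (dgF 6 B).card ≤ 720 * (B + 1) ^ 6 := by
  classical
  have h : dgF 6 B ⊆ ((Fintype.piFinset fun _ : Fin 6 => Finset.range (B + 1)) ×ˢ
      (Finset.univ : Finset (Equiv.Perm (Fin 6)))).image
      (fun q => ((q.1, fun i => q.1 (q.2 i)) : (Fin 6 → ℕ) × (Fin 6 → ℕ))) := by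
    intro p hp
    rw [mem_dgF] at hp
    obtain ⟨h1, σ, hσ⟩ := hp
    rw [mem_solF] at h1
    rw [Finset.mem_image]
    refine ⟨(p.1, σ), ?_, ?_⟩
    · rw [Finset.mem_product]
      refine ⟨?_, Finset.mem_univ _⟩
      rw [Fintype.mem_piFinset]
      intro i
      rw [Finset.mem_range]
      have := h1.1.1 i
      simp only
      omega
    · refine Prod.ext rfl ?_
      funext i
      exact (hσ i).symm
  refine (Finset.card_le_card h).trans (Finset.card_image_le.trans ?_)
  rw [Finset.card_product, Fintype.card_piFinset]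
  simp only [Finset.card_range, Finset.prod_const, Finset.card_univ, Fintype.card_fin,
    Fintype.card_perm]
  rw [mul_comm]
  exact le_of_eq rfl

private lemma le_card_dgF (B : ℕ) : 720 * (B - 4) ^ 6 ≤ (dgF 6 B).card := by
  classical
  have hcard : Fintype.card ((Fin 6 ↪ Fin (B + 1)) × Equiv.Perm (Fin 6))
      = 720 * (B + 1).descFactorial 6 := by
    rw [Fintype.card_prod, Fintype.card_embedding_eq, Fintype.card_perm]
    simp only [Fintype.card_fin]
    rw [mul_comm]
    rfl
  have h1 : 720 * (B - 4) ^ 6 ≤ 720 * (B + 1).descFactorial 6 := by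
    refine Nat.mul_le_mul_left _ ?_
    have := Nat.pow_sub_le_descFactorial (B + 1) 6
    have e : B + 1 + 1 - 6 = B - 4 := by omega
    rwa [e] at this
  refine h1.trans ?_
  rw [← hcard, ← Finset.card_univ]
  refine Finset.card_le_card_of_injOn
    (fun q => ((fun i => (q.1 i : ℕ), fun i => (q.1 (q.2 i) : ℕ)) :
      (Fin 6 → ℕ) × (Fin 6 → ℕ))) ?_ ?_
  · rintro ⟨f, σ⟩ _
    simp only [Finset.mem_coe]
    rw [mem_dgF, mem_solF]
    refine ⟨⟨⟨fun i => ?_, fun i => ?_⟩, ?_⟩, σ, fun i => rfl⟩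
    · have := (f i).2
      simp only
      omega
    · have := (f (σ i)).2
      simp only
      omega
    · intro j _
      exact (Equiv.sum_comp σ (fun i => (f i : ℕ) ^ j)).symm
  · rintro ⟨f, σ⟩ _ ⟨g, τ⟩ _ h
    simp only [Prod.mk.injEq] at h
    obtain ⟨h1, h2⟩ := h
    have hfg : f = g := by
      ext i
      exact congrFun h1 i
    subst hfg
    have hστ : σ = τ := by
      ext i
      have := congrFun h2 i
      have h3 : f (σ i) = f (τ i) := Fin.ext this
      have := f.injective h3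
      rw [this]
    subst hστ
    rfl

theorem tendsto_dg :
    Tendsto (fun B : ℕ => ((dgF 6 B).card : ℝ) / (B : ℝ) ^ 6) atTop (𝓝 720) := by
  have hinv : ∀ c : ℝ, Tendsto (fun B : ℕ => c / (B : ℝ)) atTop (𝓝 0) := fun c =>
    tendsto_const_div_atTop_nhds_zero_nat c
  have hlow : Tendsto (fun B : ℕ => 720 * (1 - 4 / (B : ℝ)) ^ 6) atTop (𝓝 720) := by
    have h := (((hinv 4).const_sub 1).pow 6).const_mul 720
    simpa using h
  have hupp : Tendsto (fun B : ℕ => 720 * (1 + 1 / (B : ℝ)) ^ 6) atTop (𝓝 720) := by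
    have h := (((hinv 1).const_add 1).pow 6).const_mul 720
    simpa using h
  refine tendsto_of_tendsto_of_tendsto_of_le_of_le' hlow hupp ?_ ?_
  · filter_upwards [eventually_ge_atTop 4] with B hB
    have hB0 : (0 : ℝ) < B := by
      have : 0 < B := by omega
      exact_mod_cast this
    rw [le_div_iff₀ (by positivity)]
    have h1 : ((720 * (B - 4) ^ 6 : ℕ) : ℝ) ≤ ((dgF 6 B).card : ℝ) := by
      exact_mod_cast le_card_dgF B
    have h2 : ((720 * (B - 4) ^ 6 : ℕ) : ℝ) = 720 * (1 - 4 / (B : ℝ)) ^ 6 * (B : ℝ) ^ 6 := by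
      push_cast [Nat.cast_sub hB]
      rw [mul_assoc, ← mul_pow]
      congr 2
      field_simp
    rw [← h2]
    exact h1
  · filter_upwards [eventually_ge_atTop 1] with B hB
    have hB0 : (0 : ℝ) < B := by
      have : 0 < B := by omega
      exact_mod_cast this
    rw [div_le_iff₀ (by positivity)]
    have h1 : ((dgF 6 B).card : ℝ) ≤ ((720 * (B + 1) ^ 6 : ℕ) : ℝ) := by
      exact_mod_cast card_dgF_le B
    refine h1.trans (le_of_eq ?_)
    push_cast
    rw [mul_assoc, ← mul_pow]
    congr 2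
    field_simp

end Pool.Agent.H19.N64
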