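import Pool.Agent.H19.N64.AsmDefs
import Pool.Agent.H34.NA.Power

/-! MODULE Z/A2 (about 70 lines). 9.3 for `s = 5`: a non-diagonal solution has no common value.

PROOF. Let `(x, y)` be a solution with `x i = y j`. Remove these two entries (`Fin.succAbove`, `Fin.sum_univ_succAbove`): the 4-tuples
`x ∘ i.succAbove`, `y ∘ j.succAbove` have equal power sums 1..4 (cast to `ℤ` or `ℚ`), so by `Pool.Agent.H34.NA.exists_equiv_of_psum_eq`
(`Fin 4`) there is a permutation `τ` with `y (j.succAbove a) = x (i.succAbove (τ a))`. The permutation of `Fin 5` sending `j` to `i` and `j.succAbove a` to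
`i.succAbove (τ a)` (Mathlib: `finSuccEquiv'`, `Equiv.optionCongr`, or `Equiv.Perm.decomposeFin` after composing with swaps; or build
`e = (finSuccEquiv' j).trans ((Equiv.optionCongr τ).trans (finSuccEquiv' i).symm)`) shows `Dg`. Please prove the last step as the
general lemma `dg_of_remove` below (it is also used in A3). -/

open scoped BigOperators

namespace Pool.Agent.H19.N64

/-- if the pair is diagonal after removing an equal value, it is diagonal -/
theorem dg_of_remove {s : ℕ} (p : (Fin (s + 1) → ℕ) × (Fin (s + 1) → ℕ)) (i j : Fin (s + 1))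
    (hij : p.1 i = p.2 j)
    (h : Dg ((fun a => p.1 (i.succAbove a), fun a => p.2 (j.succAbove a)) :
      (Fin s → ℕ) × (Fin s → ℕ))) : Dg p := by
  obtain ⟨τ, hτ⟩ := h
  simp only at hτ
  let e : Equiv.Perm (Fin (s + 1)) :=
    (finSuccEquiv' j).trans ((Equiv.optionCongr τ).trans (finSuccEquiv' i).symm)
  refine ⟨e, fun b => ?_⟩
  rcases Fin.eq_self_or_eq_succAbove j b with rfl | ⟨a, rfl⟩
  · have h1 : e b = i := by
      simp [e]
    rw [h1, hij]
  · have h1 : e (j.succAbove a) = i.succAbove (τ a) := by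
      simp [e]
    rw [h1, hτ]

theorem nd5_sub (B : ℕ) : ndF 5 B ⊆ adF 5 B := by
  intro p hp
  rw [mem_ndF] at hp
  obtain ⟨h1, h2⟩ := hp
  rw [mem_adF]
  refine ⟨h1, fun i j hij => h2 ?_⟩
  rw [mem_solF] at h1
  refine dg_of_remove p i j hij ?_
  have hps : ∀ k, 1 ≤ k → k ≤ 4 →
      ∑ a, ((p.2 (j.succAbove a) : ℕ) : ℤ) ^ k = ∑ a, ((p.1 (i.succAbove a) : ℕ) : ℤ) ^ k := by
    intro k hk1 hk4
    have h3 := h1.2 k (Finset.mem_Icc.2 ⟨hk1, hk4⟩)
    rw [Fin.sum_univ_succAbove _ i, Fin.sum_univ_succAbove _ j, hij] at h3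
    have h4 := Nat.add_left_cancel h3
    exact_mod_cast h4.symm
  obtain ⟨e, he⟩ := Pool.Agent.H34.NA.exists_equiv_of_psum_eq
    (fun a : Fin 4 => ((p.2 (j.succAbove a) : ℕ) : ℤ))
    (fun a : Fin 4 => ((p.1 (i.succAbove a) : ℕ) : ℤ)) rfl
    (fun k hk1 hk4 => hps k hk1 (by simpa using hk4))
  refine ⟨e, fun a => ?_⟩
  have := he a
  exact_mod_cast this

end Pool.Agent.H19.N64
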