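import Pool.Agent.H19.N64.A2

/-! MODULE Z/A3 (about 60 lines). 9.3 for `s = 6`: the non-diagonal solutions with a common value.

PROOF. A non-diagonal solution with a common value `x i = y j` is mapped to `((i, j), x i, (x ∘ i.succAbove, y ∘ j.succAbove))` in
`(Fin 6 x Fin 6) x range (B+1) x ndF 5 B` (power sums: `Fin.sum_univ_succAbove`; non-diagonal: `dg_of_remove`); choose `(i, j)` by
`Classical.choose`. The map is injective: from `i`, `j`, the value and the two 5-tuples one recovers `x` and `y` (`Fin.succAbove` covers the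
complement: `Fin.eq_self_or_eq_succAbove`). So their number is at most `36 (B+1) card (ndF 5 B)`; the others are in `adF 6 B`. -/

open scoped BigOperators

namespace Pool.Agent.H19.N64

theorem nd6_le (B : ℕ) :
    (ndF 6 B).card ≤ (adF 6 B).card + 36 * (B + 1) * (ndF 5 B).card := by
  classical
  -- the choice of the indices
  have hch : ∀ p : (Fin 6 → ℕ) × (Fin 6 → ℕ), ∃ q : Fin 6 × Fin 6,
      (∃ i j, p.1 i = p.2 j) → p.1 q.1 = p.2 q.2 := by
    intro p
    by_cases h : ∃ i j, p.1 i = p.2 j
    · obtain ⟨i, j, hij⟩ := h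
      exact ⟨(i, j), fun _ => hij⟩
    · exact ⟨(0, 0), fun h' => absurd h' h⟩
  choose c hc using hch
  let S : Finset ((Fin 6 → ℕ) × (Fin 6 → ℕ)) :=
    (ndF 6 B).filter fun p => ∃ i j, p.1 i = p.2 j
  have hsplit : ndF 6 B ⊆ adF 6 B ∪ S := by
    intro p hp
    rw [Finset.mem_union]
    by_cases h : ∃ i j, p.1 i = p.2 j
    · right
      exact Finset.mem_filter.2 ⟨hp, h⟩
    · left
      rw [mem_adF]
      rw [mem_ndF] at hp
      exact ⟨hp.1, fun i j hij => h ⟨i, j, hij⟩⟩
  let T : Finset ((Fin 6 × Fin 6) × (ℕ × ((Fin 5 → ℕ) × (Fin 5 → ℕ)))) :=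
    (Finset.univ : Finset (Fin 6 × Fin 6)) ×ˢ (Finset.range (B + 1) ×ˢ ndF 5 B)
  have hT : T.card = 36 * (B + 1) * (ndF 5 B).card := by
    simp only [T, Finset.card_product, Finset.card_univ, Fintype.card_prod, Fintype.card_fin,
      Finset.card_range]
    ring
  have hST : S.card ≤ T.card := by
    refine Finset.card_le_card_of_injOn
      (fun p => (c p, (p.1 (c p).1, ((fun a => p.1 ((c p).1.succAbove a)),
        (fun a => p.2 ((c p).2.succAbove a)))))) ?_ ?_
    · intro p hp
      have hp' : p ∈ S := hp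
      obtain ⟨hnd, hex⟩ := Finset.mem_filter.1 hp'
      rw [mem_ndF] at hnd
      obtain ⟨hsol, hdg⟩ := hnd
      rw [mem_solF] at hsol
      have hcp := hc p hex
      have hmem : (c p, (p.1 (c p).1, ((fun a => p.1 ((c p).1.succAbove a)),
        (fun a => p.2 ((c p).2.succAbove a))))) ∈ T := by
        simp only [T, Finset.mem_product, Finset.mem_univ, true_and, Finset.mem_range]
        refine ⟨Nat.lt_succ_of_le (hsol.1.1 _), ?_⟩
        rw [mem_ndF]
        refine ⟨?_, fun h => hdg (dg_of_remove p _ _ hcp h)⟩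
        rw [mem_solF]
        refine ⟨⟨fun i => hsol.1.1 _, fun i => hsol.1.2 _⟩, fun j hj => ?_⟩
        have h3 := hsol.2 j hj
        rw [Fin.sum_univ_succAbove _ (c p).1, Fin.sum_univ_succAbove _ (c p).2, hcp] at h3
        exact Nat.add_left_cancel h3
      exact hmem
    · intro p hp q hq hpq
      have hp' : p ∈ S := hp
      have hq' : q ∈ S := hq
      have hcp := hc p (Finset.mem_filter.1 hp').2
      have hcq := hc q (Finset.mem_filter.1 hq').2
      simp only [Prod.mk.injEq] at hpq
      obtain ⟨h1, h2, h3, h4⟩ := hpq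
      rw [← h1] at h2 h3 h4 hcq
      refine Prod.ext ?_ ?_
      · funext b
        rcases Fin.eq_self_or_eq_succAbove (c p).1 b with hb | ⟨a, hb⟩
        · rw [hb]
          exact h2
        · rw [hb]
          exact congrFun h3 a
      · funext b
        rcases Fin.eq_self_or_eq_succAbove (c p).2 b with hb | ⟨a, hb⟩
        · rw [hb, ← hcp, ← hcq]
          exact h2
        · rw [hb]
          exact congrFun h4 a
  calc (ndF 6 B).card ≤ (adF 6 B ∪ S).card := Finset.card_le_card hsplit
    _ ≤ (adF 6 B).card + S.card := Finset.card_union_le _ _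
    _ ≤ (adF 6 B).card + T.card := Nat.add_le_add_left hST _
    _ = _ := by rw [hT]

end Pool.Agent.H19.N64
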