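import Pool.Agent.H19.N64.AsmDefs

/-! MODULE Z/A4 (about 130 lines). 9.2, first half: translation and scaling.

PROOF. Let `(x, y)` be in `adF (m+2) B`. Put `c = y 0`, `x' i = x i - c`, `y' i = y i - c` (integers), `P = mkP x' y'`. By the binomial
theorem all power sums of order 0..4 of `x'` and `y'` agree (`∑ (x i - c)^k = ∑_l C(k,l) (-c)^(k-l) ∑ x i ^ l`), so `xv P = x'`,
`yv P = y'` (`xv_mkP`, `yv_mkP`) and `EE k P = 0` (`k = 2, 3, 4`); `nrm P ≤ B`; `P none = x 0 - y 0 ≠ 0`; `xv P i ≠ yv P j`.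
The pair `(c, P)` determines `(x, y)` (`x i = xv P i + c`): so `card (adF (m+2) B) ≤ (B+1) * N`, `N` the number of `P` with `nrm P ≤ B`, `EE k P = 0`,
`P none ≠ 0` and `xv P i ≠ yv P j`. For such `P` let `g = gcd of all P o` (positive, `Finset.gcd univ P` in `ℤ` or on `natAbs`), `ε = sign (P none)`,
`P = ε g Q`: `Q` is primitive, `Q none > 0`, `EE k Q = 0` (`EE_smul`), `xv Q i ≠ yv Q j` (`xv_smul`, `yv_smul`), `g * nrm Q = nrm P ≤ B`, so
`1 ≤ g ≤ B` and `nrm Q ≤ B / g` (`Nat.le_div_iff_mul_le`): `Q` is in `Sig m (B / g)`. `(ε, g, Q)` determines `P`: `N ≤ 2 ∑_{g=1..B} card (Sig m (B/g))`. -/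

open scoped BigOperators

namespace Pool.Agent.H19.N64

theorem ad_le (m B : ℕ) :
    (adF (m + 2) B).card ≤ (B + 1) * (2 * ∑ g ∈ Finset.Icc 1 B, (Sig m (B / g)).card) := by
  sorry

end Pool.Agent.H19.N64
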