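import Pool.Agent.H19.N64.A4

/-! MODULE Z/A5 (about 50 lines). 9.2, second half.

PROOF. WLOG `C ≥ 0` (replace by `|C|`). `ad_le` and `card (Sig m (B/g)) ≤ C (B/g : ℕ)^a ≤ C (B/g : ℝ)^a = C B^a g^(-a)`
(`Nat.cast_div_le`, `Real.rpow_le_rpow`, `Real.div_rpow`), and `g^(-a) ≤ g^(-2)` for `g ≥ 1`, `∑_{g=1..B} 1/g^2 ≤ 2`
(`sum_Ioc_inv_sq_le_sub` / telescoping `1/g^2 ≤ 1/(g-1) - 1/g`). So the constant `4 C` works. -/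

open scoped BigOperators

namespace Pool.Agent.H19.N64

theorem ad_bound (m : ℕ) (a : ℝ) (ha : 2 ≤ a)
    (h : ∃ C : ℝ, ∀ H : ℕ, ((Sig m H).card : ℝ) ≤ C * (H : ℝ) ^ a) :
    ∃ C : ℝ, 0 ≤ C ∧ ∀ B : ℕ, ((adF (m + 2) B).card : ℝ) ≤ C * ((B : ℝ) + 1) * (B : ℝ) ^ a := by
  sorry

end Pool.Agent.H19.N64
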