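import Pool.Agent.H19.N64.A1
import Pool.Agent.H19.N64.A3

/-! MODULE Z/A6 (about 60 lines). The frozen statement from bounds for the solutions without a common value.

PROOF. `c = 720`. The filter in the statement is `solF 6 B`; `card_solF`. `tendsto_dg` for the diagonal part. The rest: `nd6_le`,
`nd5_sub` (`Finset.card_le_card`): for `B ≥ 1`, with `C, C'` made nonnegative and `a' = max a6 (a5 + 1) < 6`:
`card (ndF 6 B) ≤ C B^a6 + 36 (B+1) C' B^a5 ≤ (C + 72 C') B^a'` (`B + 1 ≤ 2 B`), divided by `B^6`: `(C + 72 C') B^(a' - 6)` tends to 0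
(`tendsto_rpow_neg_atTop` composed with `tendsto_natCast_atTop_atTop`). -/

open scoped BigOperators
open Filter Topology

namespace Pool.Agent.H19.N64

private theorem a6_rpow {a b : ℝ} (h : a < b) :
    Tendsto (fun B : ℕ => (B : ℝ) ^ (a - b)) atTop (𝓝 0) := by
  have h1 := (tendsto_rpow_neg_atTop (show 0 < b - a by linarith)).comp
    (tendsto_natCast_atTop_atTop (R := ℝ))
  refine h1.congr fun B => ?_
  simp only [Function.comp]
  congr 1
  ring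

private theorem a6_nd
    (h6 : ∃ C a : ℝ, a < 6 ∧ ∀ B : ℕ, 1 ≤ B → ((adF 6 B).card : ℝ) ≤ C * (B : ℝ) ^ a)
    (h5 : ∃ C a : ℝ, a < 5 ∧ ∀ B : ℕ, 1 ≤ B → ((adF 5 B).card : ℝ) ≤ C * (B : ℝ) ^ a) :
    Tendsto (fun B : ℕ => ((ndF 6 B).card : ℝ) / (B : ℝ) ^ 6) atTop (𝓝 0) := by
  obtain ⟨C, a, ha, h6⟩ := h6
  obtain ⟨C', a', ha', h5⟩ := h5
  have hg : Tendsto (fun B : ℕ => |C| * (B : ℝ) ^ (a - 6) + 72 * |C'| * (B : ℝ) ^ (a' - 5))
      atTop (𝓝 0) := by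
    have := ((a6_rpow ha).const_mul |C|).add ((a6_rpow ha').const_mul (72 * |C'|))
    simpa using this
  refine squeeze_zero' (Eventually.of_forall fun B => by positivity) ?_ hg
  filter_upwards [eventually_ge_atTop 1] with B hB
  have hB1 : (1 : ℝ) ≤ B := by exact_mod_cast hB
  have hB0 : (0 : ℝ) < B := by linarith
  have e1 : ((ndF 6 B).card : ℝ) ≤ ((adF 6 B).card : ℝ) +
      36 * ((B : ℝ) + 1) * ((ndF 5 B).card : ℝ) := by exact_mod_cast nd6_le B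
  have e2 : ((ndF 5 B).card : ℝ) ≤ ((adF 5 B).card : ℝ) := by
    exact_mod_cast Finset.card_le_card (nd5_sub B)
  have e3 : ((adF 6 B).card : ℝ) ≤ |C| * (B : ℝ) ^ a :=
    (h6 B hB).trans (mul_le_mul_of_nonneg_right (le_abs_self C) (Real.rpow_nonneg hB0.le _))
  have e4 : ((adF 5 B).card : ℝ) ≤ |C'| * (B : ℝ) ^ a' :=
    (h5 B hB).trans (mul_le_mul_of_nonneg_right (le_abs_self C') (Real.rpow_nonneg hB0.le _))
  have e5 : 36 * ((B : ℝ) + 1) * ((ndF 5 B).card : ℝ) ≤ 72 * B * (|C'| * (B : ℝ) ^ a') := by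
    have h1 : 36 * ((B : ℝ) + 1) ≤ 72 * B := by linarith
    exact mul_le_mul h1 (e2.trans e4) (Nat.cast_nonneg _) (by positivity)
  have e6 : ((ndF 6 B).card : ℝ) ≤ |C| * (B : ℝ) ^ a + 72 * B * (|C'| * (B : ℝ) ^ a') := by
    linarith
  have p6 : (B : ℝ) ^ (6 : ℝ) = (B : ℝ) ^ 6 := by
    rw [← Real.rpow_natCast]; norm_num
  have p5 : (B : ℝ) ^ (5 : ℝ) = (B : ℝ) ^ 5 := by
    rw [← Real.rpow_natCast]; norm_num
  rw [div_le_iff₀ (by positivity), Real.rpow_sub hB0, Real.rpow_sub hB0, p6, p5]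
  refine e6.trans (le_of_eq ?_)
  field_simp

theorem frozen_of_ad
    (h6 : ∃ C a : ℝ, a < 6 ∧ ∀ B : ℕ, 1 ≤ B → ((adF 6 B).card : ℝ) ≤ C * (B : ℝ) ^ a)
    (h5 : ∃ C a : ℝ, a < 5 ∧ ∀ B : ℕ, 1 ≤ B → ((adF 5 B).card : ℝ) ≤ C * (B : ℝ) ^ a) :
    ∃ c : ℝ, 0 < c ∧
      Tendsto
        (fun B : ℕ =>
          ((Finset.filter
              (fun p : (Fin 6 → ℕ) × (Fin 6 → ℕ) =>
                ∀ j ∈ Finset.Icc 1 4, ∑ i, p.1 i ^ j = ∑ i, p.2 i ^ j)
              ((Fintype.piFinset fun _ : Fin 6 => Finset.range (B + 1)) ×ˢ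
                (Fintype.piFinset fun _ : Fin 6 => Finset.range (B + 1)))).card : ℝ)
            / (B : ℝ) ^ 6)
        atTop (𝓝 c) := by
  refine ⟨720, by norm_num, ?_⟩
  have h1 := tendsto_dg.add (a6_nd h6 h5)
  rw [add_zero] at h1
  refine h1.congr fun B => ?_
  change ((dgF 6 B).card : ℝ) / (B : ℝ) ^ 6 + ((ndF 6 B).card : ℝ) / (B : ℝ) ^ 6 =
    ((solF 6 B).card : ℝ) / (B : ℝ) ^ 6
  rw [card_solF]
  push_cast
  ring

end Pool.Agent.H19.N64
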