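import Pool.Agent.H19.N64.Coord

/-! # Section 9: the finite sets of solutions -/

open scoped BigOperators

namespace Pool.Agent.H19.N64

/-- pairs of `s`-tuples of integers in `[0,B]` with equal power sums 1..4 -/
def solF (s B : ℕ) : Finset ((Fin s → ℕ) × (Fin s → ℕ)) :=
  Finset.filter
    (fun p : (Fin s → ℕ) × (Fin s → ℕ) =>
      ∀ j ∈ Finset.Icc 1 4, ∑ i, p.1 i ^ j = ∑ i, p.2 i ^ j)
    ((Fintype.piFinset fun _ : Fin s => Finset.range (B + 1)) ×ˢ
      (Fintype.piFinset fun _ : Fin s => Finset.range (B + 1)))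

/-- diagonal pairs: the second tuple is a permutation of the first one -/
def Dg {s : ℕ} (p : (Fin s → ℕ) × (Fin s → ℕ)) : Prop :=
  ∃ σ : Equiv.Perm (Fin s), ∀ i, p.2 i = p.1 (σ i)

open Classical in
/-- the non-diagonal solutions -/
noncomputable def ndF (s B : ℕ) : Finset ((Fin s → ℕ) × (Fin s → ℕ)) :=
  (solF s B).filter fun p => ¬ Dg p

open Classical in
/-- the diagonal solutions -/
noncomputable def dgF (s B : ℕ) : Finset ((Fin s → ℕ) × (Fin s → ℕ)) :=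
  (solF s B).filter fun p => Dg p

/-- the solutions without a common value -/
def adF (s B : ℕ) : Finset ((Fin s → ℕ) × (Fin s → ℕ)) :=
  (solF s B).filter fun p => ∀ i j, p.1 i ≠ p.2 j

lemma mem_solF {s B : ℕ} {p : (Fin s → ℕ) × (Fin s → ℕ)} :
    p ∈ solF s B ↔ ((∀ i, p.1 i ≤ B) ∧ ∀ i, p.2 i ≤ B) ∧
      ∀ j ∈ Finset.Icc 1 4, ∑ i, p.1 i ^ j = ∑ i, p.2 i ^ j := by
  simp only [solF, Finset.mem_filter, Finset.mem_product, Fintype.mem_piFinset, Finset.mem_range,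
    Nat.lt_succ_iff]

lemma mem_ndF {s B : ℕ} {p : (Fin s → ℕ) × (Fin s → ℕ)} :
    p ∈ ndF s B ↔ p ∈ solF s B ∧ ¬ Dg p := by
  classical
  simp [ndF]

lemma mem_dgF {s B : ℕ} {p : (Fin s → ℕ) × (Fin s → ℕ)} :
    p ∈ dgF s B ↔ p ∈ solF s B ∧ Dg p := by
  classical
  simp [dgF]

lemma mem_adF {s B : ℕ} {p : (Fin s → ℕ) × (Fin s → ℕ)} :
    p ∈ adF s B ↔ p ∈ solF s B ∧ ∀ i j, p.1 i ≠ p.2 j := by
  simp [adF]

lemma card_solF (s B : ℕ) : (solF s B).card = (dgF s B).card + (ndF s B).card := by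
  classical
  rw [dgF, ndF]
  convert (Finset.card_filter_add_card_filter_not (s := solF s B) (fun p => Dg p)).symm

end Pool.Agent.H19.N64
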