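import Mathlib

/-! # Coordinates for the system of s = m + 2 against s variables

`Option (Sg m)` is the index set of the homogeneous coordinates of a normalised pair `(x; y)`, `x, y : Fin (m+2) -> R`, with `y 0 = 0` and
`sum x = sum y`: `P none = x 0`, `P (some (inl i)) = x (i+1)`, `P (some (inr j)) = y (j+1)` (`j < m`), and the last `y` is determined. -/

open scoped BigOperators

namespace Pool.Agent.H19.N64

/-- index set of the affine coordinates `x_2..x_s, y_2..y_(s-1)`, `s = m+2` -/
abbrev Sg (m : ℕ) : Type := Fin (m + 1) ⊕ Fin m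

section ring

variable {R : Type*} [CommRing R] {m : ℕ}

/-- the `x` part -/
def xv (P : Option (Sg m) → R) : Fin (m + 2) → R :=
  Fin.cons (P none) fun i => P (some (Sum.inl i))

/-- the `y` part: `0`, the free `y`'s, and the last one determined by `sum x = sum y` -/
def yv (P : Option (Sg m) → R) : Fin (m + 2) → R :=
  Fin.cons 0 (Fin.snoc (fun i : Fin m => P (some (Sum.inr i)))
    ((P none + ∑ i, P (some (Sum.inl i))) - ∑ i, P (some (Sum.inr i))))

/-- the difference of the `k`-th power sums -/
def EE (k : ℕ) (P : Option (Sg m) → R) : R := ∑ i, xv P i ^ k - ∑ i, yv P i ^ k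

/-- the coordinate vector of a pair -/
def mkP (x y : Fin (m + 2) → R) : Option (Sg m) → R
  | none => x 0
  | some (Sum.inl i) => x i.succ
  | some (Sum.inr j) => y j.castSucc.succ

@[simp] lemma xv_zero (P : Option (Sg m) → R) : xv P 0 = P none := rfl

@[simp] lemma xv_succ (P : Option (Sg m) → R) (i : Fin (m + 1)) :
    xv P i.succ = P (some (Sum.inl i)) := rfl

@[simp] lemma yv_zero (P : Option (Sg m) → R) : yv P 0 = 0 := rfl

@[simp] lemma yv_succ_castSucc (P : Option (Sg m) → R) (i : Fin m) :
    yv P i.castSucc.succ = P (some (Sum.inr i)) := by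
  simp [yv]

@[simp] lemma yv_last (P : Option (Sg m) → R) : yv P (Fin.last (m + 1)) =
    (P none + ∑ i, P (some (Sum.inl i))) - ∑ i, P (some (Sum.inr i)) := by
  have : Fin.last (m + 1) = (Fin.last m).succ := by simp
  rw [this]
  simp [yv]

lemma sum_xv (P : Option (Sg m) → R) : ∑ i, xv P i = P none + ∑ i, P (some (Sum.inl i)) := by
  rw [Fin.sum_univ_succ]
  simp

lemma sum_yv (P : Option (Sg m) → R) : ∑ i, yv P i = P none + ∑ i, P (some (Sum.inl i)) := by
  rw [Fin.sum_univ_succ, Fin.sum_univ_castSucc]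
  have : (Fin.last m).succ = Fin.last (m + 1) := by simp
  rw [this]
  simp

@[simp] lemma EE_zero (P : Option (Sg m) → R) : EE 0 P = 0 := by simp [EE]

@[simp] lemma EE_one (P : Option (Sg m) → R) : EE 1 P = 0 := by
  simp [EE, sum_xv, sum_yv]

variable {S : Type*} [CommRing S]

lemma map_xv (f : R →+* S) (P : Option (Sg m) → R) (i : Fin (m + 2)) :
    f (xv P i) = xv (fun o => f (P o)) i := by
  refine Fin.cases ?_ (fun i => ?_) i <;> simp

lemma map_yv (f : R →+* S) (P : Option (Sg m) → R) (i : Fin (m + 2)) :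
    f (yv P i) = yv (fun o => f (P o)) i := by
  refine Fin.cases ?_ (fun i => ?_) i
  · simp
  · refine Fin.lastCases ?_ (fun j => ?_) i
    · have : (Fin.last m).succ = Fin.last (m + 1) := by simp
      rw [this]
      simp
    · simp

lemma map_EE (f : R →+* S) (k : ℕ) (P : Option (Sg m) → R) :
    f (EE k P) = EE k (fun o => f (P o)) := by
  simp [EE, map_xv, map_yv]

lemma xv_smul (c : R) (P : Option (Sg m) → R) (i : Fin (m + 2)) :
    xv (fun o => c * P o) i = c * xv P i := by
  refine Fin.cases ?_ (fun i => ?_) i <;> simp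

lemma yv_smul (c : R) (P : Option (Sg m) → R) (i : Fin (m + 2)) :
    yv (fun o => c * P o) i = c * yv P i := by
  refine Fin.cases ?_ (fun i => ?_) i
  · simp
  · refine Fin.lastCases ?_ (fun j => ?_) i
    · have : (Fin.last m).succ = Fin.last (m + 1) := by simp
      rw [this]
      simp only [yv_last]
      rw [← Finset.mul_sum, ← Finset.mul_sum]
      ring
    · simp

lemma EE_smul (k : ℕ) (c : R) (P : Option (Sg m) → R) :
    EE k (fun o => c * P o) = c ^ k * EE k P := by
  simp only [EE, xv_smul, yv_smul, mul_pow, ← Finset.mul_sum]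
  ring

lemma xv_add (P Q : Option (Sg m) → R) (i : Fin (m + 2)) :
    xv (P + Q) i = xv P i + xv Q i := by
  refine Fin.cases ?_ (fun i => ?_) i <;> simp

lemma yv_add (P Q : Option (Sg m) → R) (i : Fin (m + 2)) :
    yv (P + Q) i = yv P i + yv Q i := by
  refine Fin.cases ?_ (fun i => ?_) i
  · simp
  · refine Fin.lastCases ?_ (fun j => ?_) i
    · have : (Fin.last m).succ = Fin.last (m + 1) := by simp
      rw [this]
      simp only [yv_last, Pi.add_apply, Finset.sum_add_distrib]
      ring
    · simp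

lemma xv_mkP (x y : Fin (m + 2) → R) : xv (mkP x y) = x := by
  funext i
  refine Fin.cases ?_ (fun i => ?_) i <;> simp [mkP]

lemma yv_mkP (x y : Fin (m + 2) → R) (h0 : y 0 = 0) (hs : ∑ i, x i = ∑ i, y i) :
    yv (mkP x y) = y := by
  funext i
  refine Fin.cases ?_ (fun i => ?_) i
  · simp [h0]
  · refine Fin.lastCases ?_ (fun j => ?_) i
    · have h1 : (Fin.last m).succ = Fin.last (m + 1) := by simp
      rw [h1, yv_last]
      have h2 : ∑ i, y i = ∑ i : Fin m, y i.castSucc.succ + y (Fin.last (m + 1)) := by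
        rw [Fin.sum_univ_succ, Fin.sum_univ_castSucc, h0, h1, zero_add]
      have h3 : ∑ i, x i = x 0 + ∑ i : Fin (m + 1), x i.succ := Fin.sum_univ_succ _
      rw [h2, h3] at hs
      simp only [mkP]
      linear_combination hs
    · simp [mkP]

end ring

/-! ## integral points -/

/-- sup norm of an integral vector -/
def nrm {κ : Type*} [Fintype κ] (P : κ → ℤ) : ℕ := Finset.univ.sup fun o => (P o).natAbs

lemma natAbs_le_nrm {κ : Type*} [Fintype κ] (P : κ → ℤ) (o : κ) : (P o).natAbs ≤ nrm P :=
  Finset.le_sup (f := fun o => (P o).natAbs) (Finset.mem_univ o)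

lemma nrm_le_iff {κ : Type*} [Fintype κ] {P : κ → ℤ} {B : ℕ} :
    nrm P ≤ B ↔ ∀ o, (P o).natAbs ≤ B := by
  simp [nrm, Finset.sup_le_iff]

/-- the points counted in section 9: primitive, `P_0 = x_1 > 0`, equal power sums, no common value -/
structure IsSig {m : ℕ} (P : Option (Sg m) → ℤ) : Prop where
  pos : 0 < P none
  e2 : EE 2 P = 0
  e3 : EE 3 P = 0
  e4 : EE 4 P = 0
  ne : ∀ i j, xv P i ≠ yv P j
  prim : ∀ d : ℤ, (∀ o, d ∣ P o) → IsUnit d

open Classical in
/-- `SIG_s(H)`, `s = m + 2` -/
noncomputable def Sig (m H : ℕ) : Finset (Option (Sg m) → ℤ) :=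
  (Fintype.piFinset fun _ => Finset.Icc (-(H : ℤ)) H).filter IsSig

lemma mem_Sig {m H : ℕ} {P : Option (Sg m) → ℤ} : P ∈ Sig m H ↔ nrm P ≤ H ∧ IsSig P := by
  classical
  simp only [Sig, Finset.mem_filter, Fintype.mem_piFinset, Finset.mem_Icc, nrm_le_iff]
  refine and_congr_left fun _ => forall_congr' fun o => ?_
  omega

end Pool.Agent.H19.N64
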