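import Pool.Agent.H19.N64.Frame

/-! # Arithmetic of exponents of internal sets -/

open scoped BigOperators
open Filter MvPolynomial

namespace Pool.Agent.H19.N64

variable {σ : Type} {B : ℕ → ℕ} {S S' S'' : ℕ → Finset (σ → ℤ)} {a a' : ℝ}

lemma UF_le : UF ≤ (atTop : Filter ℕ) := Nat.hyperfilter_le_atTop

/-- `B_j^e` is eventually larger than any constant -/
lemma ev_ge (hB : Tendsto B atTop atTop) {e : ℝ} (he : 0 < e) (C : ℝ) :
    ∀ᶠ j in UF, C ≤ (B j : ℝ) ^ e := by
  have h1 : Tendsto (fun j => (B j : ℝ) ^ e) atTop atTop :=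
    (tendsto_rpow_atTop he).comp (tendsto_natCast_atTop_atTop.comp hB)
  exact (h1.eventually_ge_atTop C).filter_mono UF_le

lemma ev_pos (hB : Tendsto B atTop atTop) : ∀ᶠ j in UF, (1 : ℝ) ≤ (B j : ℝ) := by
  have h1 : Tendsto (fun j => (B j : ℝ)) atTop atTop := tendsto_natCast_atTop_atTop.comp hB
  exact (h1.eventually_ge_atTop 1).filter_mono UF_le

lemma Expo.of_empty (h : ∀ᶠ j in UF, S j = ∅) : Expo B S a := by
  intro e he
  filter_upwards [h] with j hj
  rw [hj, Finset.card_empty, Nat.cast_zero]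
  exact Real.rpow_nonneg (Nat.cast_nonneg _) _

lemma Expo.mono_exp (hB : Tendsto B atTop atTop) (h : Expo B S a) (haa : a ≤ a') :
    Expo B S a' := by
  intro e he
  filter_upwards [h e he, ev_pos hB] with j h1 h2
  exact h1.trans (Real.rpow_le_rpow_of_exponent_le h2 (by linarith))

lemma Expo.mono_set (h : Expo B S a) (hs : ∀ᶠ j in UF, S' j ⊆ S j) : Expo B S' a := by
  intro e he
  filter_upwards [h e he, hs] with j h1 h2
  exact le_trans (by exact_mod_cast Finset.card_le_card h2) h1

/-- scaling: `|S_j| ≤ C B_j^c |S'_j|` -/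
lemma Expo.scale (hB : Tendsto B atTop atTop) (h : Expo B S' a) {C c : ℝ}
    (hs : ∀ᶠ j in UF, ((S j).card : ℝ) ≤ C * (B j : ℝ) ^ c * ((S' j).card : ℝ)) :
    Expo B S (a + c) := by
  intro e he
  filter_upwards [h (e / 2) (by linarith), hs, ev_pos hB, ev_ge hB (half_pos he) |C|] with j h1 h2 h3 h4
  have hpos : (0 : ℝ) < (B j : ℝ) := lt_of_lt_of_le one_pos h3
  calc ((S j).card : ℝ) ≤ C * (B j : ℝ) ^ c * ((S' j).card : ℝ) := h2
    _ ≤ |C| * (B j : ℝ) ^ c * ((S' j).card : ℝ) := by
        gcongr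
        exact le_abs_self C
    _ ≤ (B j : ℝ) ^ (e / 2) * (B j : ℝ) ^ c * (B j : ℝ) ^ (a + e / 2) := by
        gcongr
    _ = (B j : ℝ) ^ (a + c + e) := by
        rw [← Real.rpow_add hpos, ← Real.rpow_add hpos]
        congr 1
        ring

lemma Expo.union [DecidableEq (σ → ℤ)] (hB : Tendsto B atTop atTop)
    (hs : ∀ᶠ j in UF, S j ⊆ S' j ∪ S'' j) (h1 : Expo B S' a) (h2 : Expo B S'' a) :
    Expo B S a := by
  intro e he
  filter_upwards [h1 (e / 2) (by linarith), h2 (e / 2) (by linarith), hs, ev_pos hB,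
    ev_ge hB (half_pos he) 2] with j h1 h2 h3 h4 h5
  have hpos : (0 : ℝ) < (B j : ℝ) := lt_of_lt_of_le one_pos h4
  have hc : ((S j).card : ℝ) ≤ ((S' j).card : ℝ) + ((S'' j).card : ℝ) := by
    exact_mod_cast (Finset.card_le_card h3).trans (Finset.card_union_le _ _)
  calc ((S j).card : ℝ) ≤ (B j : ℝ) ^ (a + e / 2) + (B j : ℝ) ^ (a + e / 2) := by linarith
    _ = 2 * (B j : ℝ) ^ (a + e / 2) := by ring
    _ ≤ (B j : ℝ) ^ (e / 2) * (B j : ℝ) ^ (a + e / 2) := by gcongr
    _ = (B j : ℝ) ^ (a + e) := by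
        rw [← Real.rpow_add hpos]
        congr 1
        ring

/-- closure: it is enough to have all larger exponents -/
lemma Expo.of_forall {c : ℝ} (h : ∀ η : ℝ, 0 < η → Expo B S (a + c * η)) : Expo B S a := by
  intro e he
  have hη : 0 < e / (2 * (|c| + 1)) := by positivity
  by_cases hB0 : ∀ᶠ j in UF, (1 : ℝ) ≤ (B j : ℝ)
  · filter_upwards [h _ hη (e / 2) (by linarith), hB0] with j h1 h2
    refine h1.trans (Real.rpow_le_rpow_of_exponent_le h2 ?_)
    have h3 : c * (e / (2 * (|c| + 1))) ≤ e / 2 := by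
      have h4 : c ≤ |c| + 1 := (le_abs_self c).trans (by linarith)
      calc c * (e / (2 * (|c| + 1))) ≤ (|c| + 1) * (e / (2 * (|c| + 1))) := by gcongr
        _ = e / 2 := by
            have : |c| + 1 ≠ 0 := by positivity
            field_simp
    linarith
  · have h5 : ∀ᶠ j in UF, ¬ (1 : ℝ) ≤ (B j : ℝ) := Ultrafilter.eventually_not.mpr hB0
    by_cases hz : a + e = 0
    · have h6 := h _ hη (e / 2) (by linarith)
      filter_upwards [h6, h5] with j h7 h8
      have hb : (B j : ℝ) = 0 := by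
        have : (B j : ℝ) < 1 := not_le.mp h8
        have : B j = 0 := by
          have h9 : B j < 1 := by exact_mod_cast this
          omega
        exact_mod_cast this
      rw [hz, Real.rpow_zero]
      rw [hb] at h7
      refine h7.trans ?_
      rcases eq_or_ne (a + c * (e / (2 * (|c| + 1))) + e / 2) 0 with h10 | h10
      · rw [h10, Real.rpow_zero]
      · rw [Real.zero_rpow h10]
        exact zero_le_one
    · -- then use two different exponents
      have h6 := h _ hη (e / 2) (by linarith)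
      have h6' := h _ hη e he
      filter_upwards [h6, h6', h5] with j h7 h7' h8
      have hb : (B j : ℝ) = 0 := by
        have : (B j : ℝ) < 1 := not_le.mp h8
        have : B j = 0 := by
          have h9 : B j < 1 := by exact_mod_cast this
          omega
        exact_mod_cast this
      rw [hb] at h7 h7' ⊢
      rw [Real.zero_rpow hz]
      rcases eq_or_ne (a + c * (e / (2 * (|c| + 1))) + e / 2) 0 with h10 | h10
      · have h11 : a + c * (e / (2 * (|c| + 1))) + e ≠ 0 := by
          intro h12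
          linarith
        rwa [Real.zero_rpow h11] at h7'
      · rwa [Real.zero_rpow h10] at h7

end Pool.Agent.H19.N64
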