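import Mathlib

/-! # The ultraproduct frame: internal sets of integral points, exponents, prime induction -/

open scoped BigOperators
open Filter MvPolynomial

namespace Pool.Agent.H19.N64

/-- the ultrafilter, as a filter -/
noncomputable abbrev UF : Filter ℕ := (hyperfilter ℕ : Filter ℕ)

/-- the ultrapower of `ℚ` -/
abbrev KU : Type := (hyperfilter ℕ : Filter ℕ).Germ ℚ

variable {σ : Type} [Fintype σ]

/-- the `KU`-point of a sequence of integral points -/
noncomputable def gp (z : ℕ → σ → ℤ) : σ → KU :=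
  fun i => ((fun j => (z j i : ℚ) : ℕ → ℚ) : KU)

/-- the internal set `S` lies on `V(I)` -/
def OnU (I : Ideal (MvPolynomial σ KU)) (S : ℕ → Finset (σ → ℤ)) : Prop :=
  ∀ z : ℕ → σ → ℤ, (∀ᶠ j in UF, z j ∈ S j) → ∀ F ∈ I, eval (gp z) F = 0

/-- `|S_j| ≤ B_j^(a+e)` for every `e > 0` and almost all `j` -/
def Expo (B : ℕ → ℕ) (S : ℕ → Finset (σ → ℤ)) (a : ℝ) : Prop :=
  ∀ e : ℝ, 0 < e → ∀ᶠ j in UF, ((S j).card : ℝ) ≤ (B j : ℝ) ^ (a + e)

lemma exists_lift (x : KU) : ∃ f : ℕ → ℚ, (f : KU) = x :=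
  Germ.inductionOn x fun f => ⟨f, rfl⟩

/-- a sequence representing an element of the ultrapower -/
noncomputable def lft (x : KU) : ℕ → ℚ := Classical.choose (exists_lift x)

lemma lft_spec (x : KU) : ((lft x : ℕ → ℚ) : KU) = x := Classical.choose_spec (exists_lift x)

/-- a sequence of rational polynomials representing a polynomial over the ultrapower -/
noncomputable def rep (F : MvPolynomial σ KU) (j : ℕ) : MvPolynomial σ ℚ :=
  ∑ m ∈ F.support, monomial m (lft (F.coeff m) j)

omit [Fintype σ] in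
lemma eval_gp (F : MvPolynomial σ KU) (z : ℕ → σ → ℤ) :
    eval (gp z) F = ((fun j => eval (fun i => (z j i : ℚ)) (rep F j) : ℕ → ℚ) : KU) := by
  have h1 : ∀ m : σ →₀ ℕ, eval (gp z) (monomial m (F.coeff m)) =
      ((fun j => eval (fun i => (z j i : ℚ))
        (monomial m (lft (F.coeff m) j)) : ℕ → ℚ) : KU) := by
    intro m
    rw [eval_monomial]
    have h2 : F.coeff m = ((lft (F.coeff m) : ℕ → ℚ) : KU) := (lft_spec _).symm
    have h3 : (m.prod fun i e => gp z i ^ e) =
        ((fun j => m.prod fun i e => (z j i : ℚ) ^ e : ℕ → ℚ) : KU) := by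
      have : ((Germ.coeRingHom (UF) : (ℕ → ℚ) →+* KU)
          (m.prod fun i e => (fun j => (z j i : ℚ) : ℕ → ℚ) ^ e)) =
          (m.prod fun i e => gp z i ^ e) := by
        rw [Finsupp.prod, map_prod]
        simp only [map_pow]
        rfl
      rw [← this]
      have h4 : (m.prod fun i e => (fun j => (z j i : ℚ) : ℕ → ℚ) ^ e) =
          (fun j => m.prod fun i e => (z j i : ℚ) ^ e : ℕ → ℚ) := by
        funext j
        simp [Finsupp.prod, Finset.prod_apply]
      rw [h4]
      rfl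
    rw [h3]
    conv_lhs => rw [h2]
    simp only [eval_monomial]
    rfl
  conv_lhs => rw [F.as_sum]
  rw [map_sum]
  have h5 : (fun j => eval (fun i => (z j i : ℚ)) (rep F j) : ℕ → ℚ) =
      ∑ m ∈ F.support, (fun j => eval (fun i => (z j i : ℚ))
        (monomial m (lft (F.coeff m) j)) : ℕ → ℚ) := by
    funext j
    rw [rep, map_sum, Finset.sum_apply]
  rw [h5]
  have h6 : (((∑ m ∈ F.support, (fun j => eval (fun i => (z j i : ℚ))
        (monomial m (lft (F.coeff m) j)) : ℕ → ℚ)) : ℕ → ℚ) : KU) =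
      ∑ m ∈ F.support, ((fun j => eval (fun i => (z j i : ℚ))
        (monomial m (lft (F.coeff m) j)) : ℕ → ℚ) : KU) :=
    map_sum (Germ.coeRingHom (UF) : (ℕ → ℚ) →+* KU) _ _
  rw [h6]
  exact Finset.sum_congr rfl fun m _ => h1 m

omit [Fintype σ] in
lemma eval_gp_eq_zero (F : MvPolynomial σ KU) (z : ℕ → σ → ℤ) :
    eval (gp z) F = 0 ↔ ∀ᶠ j in UF, eval (fun i => (z j i : ℚ)) (rep F j) = 0 := by
  rw [eval_gp]
  exact Germ.coe_eq

omit [Fintype σ] in
lemma OnU.mono {I : Ideal (MvPolynomial σ KU)} {S S' : ℕ → Finset (σ → ℤ)} (h : OnU I S)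
    (hs : ∀ᶠ j in UF, S' j ⊆ S j) : OnU I S' := by
  intro z hz F hF
  refine h z ?_ F hF
  filter_upwards [hz, hs] with j h1 h2 using h2 h1

omit [Fintype σ] in
/-- an internal set on the empty variety is empty -/
lemma OnU.empty_of_top {S : ℕ → Finset (σ → ℤ)} (h : OnU (⊤ : Ideal (MvPolynomial σ KU)) S) :
    ∀ᶠ j in UF, S j = ∅ := by
  classical
  by_contra hcon
  have h1 : ∀ᶠ j in UF, ¬ S j = ∅ := Ultrafilter.eventually_not.mpr hcon
  have h2 : ∃ z : ℕ → σ → ℤ, ∀ᶠ j in UF, z j ∈ S j := by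
    refine ⟨fun j => if hj : (S j).Nonempty then hj.choose else 0, ?_⟩
    filter_upwards [h1] with j hj
    have hj' : (S j).Nonempty := Finset.nonempty_iff_ne_empty.mpr hj
    rw [dif_pos hj']
    exact hj'.choose_spec
  obtain ⟨z, hz⟩ := h2
  have := h z hz 1 Submodule.mem_top
  simp at this

omit [Fintype σ] in
open Classical in
/-- the part of `S` where the polynomial vanishes -/
lemma OnU.sup_span {I : Ideal (MvPolynomial σ KU)} {S : ℕ → Finset (σ → ℤ)} (h : OnU I S)
    (F : MvPolynomial σ KU) (S' : ℕ → Finset (σ → ℤ)) (hs : ∀ᶠ j in UF, S' j ⊆ S j)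
    (hF : ∀ z : ℕ → σ → ℤ, (∀ᶠ j in UF, z j ∈ S' j) → eval (gp z) F = 0) :
    OnU (I ⊔ Ideal.span {F}) S' := by
  intro z hz G hG
  have h1 := h.mono hs z hz
  obtain ⟨a, ha, b, hb, rfl⟩ := Submodule.mem_sup.mp hG
  obtain ⟨c, rfl⟩ := Ideal.mem_span_singleton'.mp hb
  rw [map_add, map_mul, h1 a ha, hF z hz, mul_zero, add_zero]

/-- PRIME INDUCTION -/
theorem prime_induction (Φ : (ℕ → Finset (σ → ℤ)) → Prop)
    (h0 : ∀ S, (∀ᶠ j in UF, S j = ∅) → Φ S)
    (hU : ∀ S S' S'', (∀ᶠ j in UF, S j ⊆ S' j ∪ S'' j) → Φ S' → Φ S'' → Φ S)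
    (I : Ideal (MvPolynomial σ KU)) (S : ℕ → Finset (σ → ℤ)) (hS : OnU I S)
    (hP : ∀ P : Ideal (MvPolynomial σ KU), P.IsPrime → I ≤ P →
      ∀ S' : ℕ → Finset (σ → ℤ), (∀ᶠ j in UF, S' j ⊆ S j) → OnU P S' → Φ S') : Φ S := by
  classical
  suffices H : ∀ J : Ideal (MvPolynomial σ KU), I ≤ J → ∀ S' : ℕ → Finset (σ → ℤ),
      (∀ᶠ j in UF, S' j ⊆ S j) → OnU J S' → Φ S' from
    H I le_rfl S (Eventually.of_forall fun _ => Finset.Subset.refl _) hS
  intro J
  induction J using WellFoundedGT.induction with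
  | _ J ih =>
    intro hIJ S' hS' hJ
    by_cases htop : J = ⊤
    · subst htop
      exact h0 _ hJ.empty_of_top
    by_cases hpr : J.IsPrime
    · exact hP J hpr hIJ S' hS' hJ
    · rw [Ideal.isPrime_iff] at hpr
      push Not at hpr
      obtain ⟨f, g, hfg, hf, hg⟩ := hpr htop
      set S1 : ℕ → Finset (σ → ℤ) := fun j =>
        (S' j).filter fun z => eval (fun i => (z i : ℚ)) (rep f j) = 0 with hS1
      set S2 : ℕ → Finset (σ → ℤ) := fun j =>
        (S' j).filter fun z => ¬ eval (fun i => (z i : ℚ)) (rep f j) = 0 with hS2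
      have hlt : ∀ a : MvPolynomial σ KU, a ∉ J → J < J ⊔ Ideal.span {a} := by
        intro a ha
        refine lt_of_le_of_ne le_sup_left fun h => ha ?_
        rw [h]
        exact Ideal.mem_sup_right (Ideal.mem_span_singleton_self a)
      refine hU S' S1 S2 (Eventually.of_forall fun j z hz => ?_) ?_ ?_
      · by_cases h : eval (fun i => (z i : ℚ)) (rep f j) = 0
        · exact Finset.mem_union_left _ (Finset.mem_filter.mpr ⟨hz, h⟩)
        · exact Finset.mem_union_right _ (Finset.mem_filter.mpr ⟨hz, h⟩)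
      · refine ih _ (hlt f hf) (hIJ.trans le_sup_left) S1 ?_ ?_
        · filter_upwards [hS'] with j hj using (Finset.filter_subset _ _).trans hj
        · refine hJ.sup_span f S1 (Eventually.of_forall fun j => Finset.filter_subset _ _) ?_
          intro z hz
          rw [eval_gp_eq_zero]
          filter_upwards [hz] with j hj using (Finset.mem_filter.mp hj).2
      · refine ih _ (hlt g hg) (hIJ.trans le_sup_left) S2 ?_ ?_
        · filter_upwards [hS'] with j hj using (Finset.filter_subset _ _).trans hj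
        · refine hJ.sup_span g S2 (Eventually.of_forall fun j => Finset.filter_subset _ _) ?_
          intro z hz
          have h1 : eval (gp z) (f * g) = 0 :=
            hJ z (by filter_upwards [hz] with j hj using (Finset.mem_filter.mp hj).1) _ hfg
          rw [map_mul, mul_eq_zero] at h1
          refine h1.resolve_left fun h2 => ?_
          rw [eval_gp_eq_zero] at h2
          obtain ⟨j, hj1, hj2⟩ := (h2.and hz).exists
          exact (Finset.mem_filter.mp hj2).2 hj1

end Pool.Agent.H19.N64
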