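import Pool.Agent.H19.N64.Expo
import Pool.Agent.H19.N64.H6
import Pool.Agent.H76.NN.Trd

/-! # REC and theorem T: definitions and interfaces (paper of helper62, sections 3 and 5) -/

open scoped BigOperators
open Filter MvPolynomial Pool.H76.NN

namespace Pool.Agent.H19.N64

/-- the constants `K_r`: `K_r^r ≥ ρ_r`, `ρ = 3/4, 1/2, 1/3, 1/6, 1/12, 1/24, 0, 0, ...` -/
noncomputable def Kc : ℕ → ℝ
  | 0 => 0.75
  | 1 => 0.75
  | 2 => 0.7072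
  | 3 => 0.6934
  | 4 => 0.639
  | 5 => 0.6084
  | 6 => 0.5889
  | _ => 0.5

/-- `g(m, κ) = ∑_{1 ≤ i ≤ m} max(K_i - κ, 0)` -/
noncomputable def gg (m : ℕ) (κ : ℝ) : ℝ := ∑ i ∈ Finset.range m, max (Kc (i + 1) - κ) 0

/-- the power sum equations -/
noncomputable def Fk (s k : ℕ) (R : Type) [CommRing R] : MvPolynomial (Fin s ⊕ Fin s) R :=
  ∑ i, X (Sum.inl i) ^ k - ∑ i, X (Sum.inr i) ^ k

/-- the linear form of an integral vector -/
noncomputable def linf {σ : Type} [Fintype σ] (R : Type) [CommRing R] (h : σ → ℤ) :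
    MvPolynomial σ R := ∑ i, C ((h i : ℤ) : R) * X i

/-- `P` contains the equations and the fixed linear forms -/
structure Cont {s f : ℕ} (h : Fin f → Fin s ⊕ Fin s → ℤ) (u : Fin f → KU)
    (P : Ideal (MvPolynomial (Fin s ⊕ Fin s) KU)) : Prop where
  eq : ∀ k ∈ Finset.Icc 1 4, Fk s k KU ∈ P
  lin : ∀ l, linf KU (h l) - C (u l) ∈ P

/-- the points of `S_j` lie in the box `|z_i| ≤ B_j` -/
def Box {σ : Type} (B : ℕ → ℕ) (S : ℕ → Finset (σ → ℤ)) : Prop :=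
  ∀ j, ∀ z ∈ S j, ∀ i, |z i| ≤ (B j : ℤ)

/-- (DL) determinant lemma and Lemma R together -/
def DLP {s f : ℕ} (h : Fin f → Fin s ⊕ Fin s → ℤ) (Nz : MvPolynomial (Fin s ⊕ Fin s) ℤ) :
    Prop :=
  ∀ (u : Fin f → KU) (P : Ideal (MvPolynomial (Fin s ⊕ Fin s) KU)), P.IsPrime → Cont h u P →
    1 ≤ dim P → ∀ B : ℕ → ℕ, Tendsto B atTop atTop →
    ∀ S : ℕ → Finset (Fin s ⊕ Fin s → ℤ), Box B S → OnU P S →
    ∀ (t : ℕ) (p : Fin t → ℕ → ℕ) (β : Fin t → ℝ), (∀ i, 0 < β i) → Kc (dim P) < ∑ i, β i →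
      (∀ᶠ j in UF, ∀ i, (p i j).Prime ∧ (B j : ℝ) ^ β i ≤ (p i j : ℝ)) →
      (∀ᶠ j in UF, Function.Injective fun i => p i j) →
      (∀ᶠ j in UF, ∀ i, ∀ z ∈ S j, ∀ z' ∈ S j, ∀ a, (p i j : ℤ) ∣ z a - z' a) →
      (∀ᶠ j in UF, ∀ i, ∀ z ∈ S j, ¬ (p i j : ℤ) ∣ eval z Nz) →
      ∃ F : MvPolynomial (Fin s ⊕ Fin s) KU, F ∉ P ∧
        ∀ z : ℕ → Fin s ⊕ Fin s → ℤ, (∀ᶠ j in UF, z j ∈ S j) → eval (gp z) F = 0

open Classical in
/-- (CC) class count -/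
def CCP (σ : Type) [Fintype σ] [DecidableEq σ] : Prop :=
  ∀ P : Ideal (MvPolynomial σ KU), P.IsPrime → ∀ S : ℕ → Finset (σ → ℤ), OnU P S →
    ∀ q : ℕ → ℕ, (∀ᶠ j in UF, (q j).Prime) → Tendsto q UF atTop →
      ∃ C : ℕ, ∀ᶠ j in UF,
        ((S j).image fun z a => ((z a : ℤ) : ZMod (q j))).card ≤ C * q j ^ dim P

/-- (GP) good primes -/
def GPP (σ : Type) [Fintype σ] : Prop :=
  ∀ B : ℕ → ℕ, Tendsto B atTop atTop → ∀ S : ℕ → Finset (σ → ℤ), Box B S →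
    ∀ Nz : MvPolynomial σ ℤ, (∀ j, ∀ z ∈ S j, eval z Nz ≠ 0) →
    ∀ b : ℝ, 0 < b → ∀ (t : ℕ) (p : Fin t → ℕ → ℕ),
      ∃ (q : ℕ → ℕ) (C T : ℕ) (S' : ℕ → Finset (σ → ℤ)), (∀ j, S' j ⊆ S j) ∧
        ∀ᶠ j in UF, (q j).Prime ∧ (B j : ℝ) ^ b ≤ (q j : ℝ) ∧ (q j : ℝ) ≤ C * (B j : ℝ) ^ b ∧
          (∀ i, q j ≠ p i j) ∧ (S j).card ≤ T * (S' j).card ∧
          ∀ z ∈ S' j, ¬ (q j : ℤ) ∣ eval z Nz

lemma Kc_pos (r : ℕ) : 0 < Kc r := by
  rcases r with _ | _ | _ | _ | _ | _ | _ | r <;> simp only [Kc] <;> norm_num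

lemma Kc_le (r : ℕ) : Kc r ≤ 0.75 := by
  rcases r with _ | _ | _ | _ | _ | _ | _ | r <;> simp only [Kc] <;> norm_num

lemma Kc_succ_le (r : ℕ) : Kc (r + 1) ≤ Kc r := by
  rcases r with _ | _ | _ | _ | _ | _ | _ | r <;> simp only [Kc] <;> norm_num

lemma Kc_antitone : Antitone Kc := antitone_nat_of_succ_le Kc_succ_le

lemma gg_succ (m : ℕ) (κ : ℝ) : gg (m + 1) κ = gg m κ + max (Kc (m + 1) - κ) 0 :=
  Finset.sum_range_succ _ _

lemma gg_nonneg (m : ℕ) (κ : ℝ) : 0 ≤ gg m κ :=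
  Finset.sum_nonneg fun _ _ => le_max_right _ _

lemma gg_mono {m m' : ℕ} (h : m ≤ m') (κ : ℝ) : gg m κ ≤ gg m' κ :=
  Finset.sum_le_sum_of_subset_of_nonneg (Finset.range_mono h) fun _ _ _ => le_max_right _ _

lemma gg_anti (m : ℕ) {κ κ' : ℝ} (h : κ ≤ κ') : gg m κ' ≤ gg m κ :=
  Finset.sum_le_sum fun _ _ => max_le_max (by linarith) le_rfl

/-- the accounting: `m δ + g(m-1, κ+δ) ≤ g(m, κ) + m η`, `κ + δ = max(κ, K_m) + η` -/
lemma gg_step (m : ℕ) (κ η : ℝ) (hη : 0 ≤ η) :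
    ((m : ℝ) + 1) * (max κ (Kc (m + 1)) + η - κ) + gg m (max κ (Kc (m + 1)) + η) ≤
      gg (m + 1) κ + ((m : ℝ) + 1) * η := by
  rcases le_total κ (Kc (m + 1)) with h | h
  · rw [max_eq_right h]
    have h1 : gg m (Kc (m + 1) + η) ≤ gg m (Kc (m + 1)) := gg_anti m (by linarith)
    have h2 : gg m (Kc (m + 1)) = ∑ i ∈ Finset.range m, (Kc (i + 1) - Kc (m + 1)) := by
      refine Finset.sum_congr rfl fun i hi => max_eq_left ?_
      have : Kc (m + 1) ≤ Kc (i + 1) := Kc_antitone (by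
        have := Finset.mem_range.mp hi
        omega)
      linarith
    have h3 : gg (m + 1) κ = ∑ i ∈ Finset.range (m + 1), (Kc (i + 1) - κ) := by
      refine Finset.sum_congr rfl fun i hi => max_eq_left ?_
      have : Kc (m + 1) ≤ Kc (i + 1) := Kc_antitone (by
        have := Finset.mem_range.mp hi
        omega)
      linarith
    have h4 : ∑ i ∈ Finset.range m, (Kc (i + 1) - Kc (m + 1)) =
        ∑ i ∈ Finset.range m, Kc (i + 1) - m * Kc (m + 1) := by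
      rw [Finset.sum_sub_distrib]
      simp
    have h5 : ∑ i ∈ Finset.range (m + 1), (Kc (i + 1) - κ) =
        ∑ i ∈ Finset.range m, Kc (i + 1) + Kc (m + 1) - (m + 1) * κ := by
      rw [Finset.sum_sub_distrib, Finset.sum_range_succ]
      simp
    rw [h3, h5]
    rw [h2, h4] at h1
    nlinarith
  · rw [max_eq_left h]
    have h1 : gg m (κ + η) ≤ gg m κ := gg_anti m (by linarith)
    have h2 : gg m κ ≤ gg (m + 1) κ := gg_mono (Nat.le_succ m) κ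
    nlinarith

end Pool.Agent.H19.N64
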